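import Pool.Agent.W611.RO.Stms

/-!
Project RO (helper611), part LEAD: the determinant of the leading term (helper493).
-/

set_option autoImplicit false
open scoped ComplexConjugate InnerProductSpace Topology BoundedContinuousFunction
open Filter MeasureTheory NormedSpace

namespace Pool.Agent.W493.RO.Lead
open Pool.Agent.H712R5.BO Pool.Agent.W611.RO

section eig
variable {X : Type*} [NormedAddCommGroup X] [InnerProductSpace ℂ X] [CompleteSpace X]

omit [CompleteSpace X] in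
theorem mem_spec {S : X →L[ℂ] X} {E : ℝ} {ψ : X} (h0 : ψ ≠ 0)
    (h : S ψ = (E : ℂ) • ψ) : E ∈ spectrum ℝ S := by
  rw [spectrum.mem_iff]
  intro hu
  obtain ⟨u, hu⟩ := hu
  have h1 : (algebraMap ℝ (X →L[ℂ] X) E - S) ψ = 0 := by
    rw [Algebra.algebraMap_eq_smul_one, _root_.sub_apply, _root_.smul_apply, h]
    show (E : ℝ) • ψ - (E : ℂ) • ψ = 0
    rw [sub_eq_zero]
    exact RCLike.real_smul_eq_coe_smul (K := ℂ) E ψ
  apply h0
  have h2 : ((u⁻¹ : (X →L[ℂ] X)ˣ) : X →L[ℂ] X) ((u : X →L[ℂ] X) ψ) = ψ := by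
    have : ((u⁻¹ : (X →L[ℂ] X)ˣ) : X →L[ℂ] X) * (u : X →L[ℂ] X) = 1 := Units.inv_mul u
    exact congrArg (fun T : X →L[ℂ] X => T ψ) this
  rw [← h2, hu, h1, map_zero]

theorem cfcHom_eig {S : X →L[ℂ] X} (hS : IsSelfAdjoint S) {E : ℝ} {ψ : X} (h0 : ψ ≠ 0)
    (h : S ψ = (E : ℂ) • ψ) (f : C(spectrum ℝ S, ℝ)) :
    (cfcHom (R := ℝ) hS f) ψ = ((f ⟨E, mem_spec h0 h⟩ : ℝ) : ℂ) • ψ := by
  induction f using ContinuousMap.induction_on_of_compact with
  | const r =>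
    have e : cfcHom (R := ℝ) hS (ContinuousMap.const (spectrum ℝ S) r) =
        algebraMap ℝ (X →L[ℂ] X) r := AlgHomClass.commutes (cfcHom (R := ℝ) hS) r
    rw [e, Algebra.algebraMap_eq_smul_one, _root_.smul_apply, ContinuousMap.const_apply]
    exact RCLike.real_smul_eq_coe_smul (K := ℂ) r ψ
  | id =>
    have e := cfcHom_id (R := ℝ) hS
    rw [e, h]
    rfl
  | star_id =>
    have e := cfcHom_id (R := ℝ) hS
    have e2 : star (ContinuousMap.restrict (spectrum ℝ S) (ContinuousMap.id ℝ)) =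
        ContinuousMap.restrict (spectrum ℝ S) (ContinuousMap.id ℝ) := by
      ext y; simp
    rw [e2, e, h]
    rfl
  | add f g hf hg =>
    rw [map_add, _root_.add_apply, hf, hg, ContinuousMap.add_apply, ← add_smul]
    push_cast
    rfl
  | mul f g hf hg =>
    rw [map_mul]
    show (cfcHom (R := ℝ) hS f) ((cfcHom (R := ℝ) hS g) ψ) = _
    rw [hg, map_smul, hf, ContinuousMap.mul_apply, smul_smul]
    push_cast
    rw [mul_comm]
  | frequently f hf =>
    have hc1 : Continuous fun g : C(spectrum ℝ S, ℝ) => (cfcHom (R := ℝ) hS g) ψ := by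
      have h1 := cfcHom_continuous (R := ℝ) hS
      exact (ContinuousLinearMap.apply ℂ X ψ).continuous.comp h1
    have hc2 : Continuous fun g : C(spectrum ℝ S, ℝ) =>
        ((g ⟨E, mem_spec h0 h⟩ : ℝ) : ℂ) • ψ :=
      (Complex.continuous_ofReal.comp (ContinuousEvalConst.continuous_eval_const _)).smul
        continuous_const
    have hcl : IsClosed {g : C(spectrum ℝ S, ℝ) | (cfcHom (R := ℝ) hS g) ψ =
        ((g ⟨E, mem_spec h0 h⟩ : ℝ) : ℂ) • ψ} := isClosed_eq hc1 hc2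
    have hmem : f ∈ closure {g : C(spectrum ℝ S, ℝ) | (cfcHom (R := ℝ) hS g) ψ =
        ((g ⟨E, mem_spec h0 h⟩ : ℝ) : ℂ) • ψ} := mem_closure_iff_frequently.mpr hf
    rw [hcl.closure_eq] at hmem
    exact hmem

theorem cfc_eig {S : X →L[ℂ] X} (hS : IsSelfAdjoint S) {E : ℝ} {ψ : X} (h0 : ψ ≠ 0)
    (h : S ψ = (E : ℂ) • ψ) (f : ℝ → ℝ) (hf : ContinuousOn f (spectrum ℝ S)) :
    (cfc f S) ψ = ((f E : ℝ) : ℂ) • ψ := by
  rw [cfc_apply f S hS hf, cfcHom_eig hS h0 h]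
  rfl

end eig

theorem spec_low {A : Type} [CStarAlgebra A] (S : A) {δ : ℝ} :
    ∀ x ∈ spectrum ℝ (algebraMap ℝ A δ + star S * S), δ ≤ x := by
  intro x hx
  rw [← spectrum.singleton_add_eq] at hx
  obtain ⟨y, hy, z, hz, rfl⟩ := hx
  rw [Set.mem_singleton_iff] at hy
  subst hy
  have := spectrum_star_mul_self_nonneg z hz
  simp only
  linarith

theorem sa_low {A : Type} [CStarAlgebra A] (S : A) (δ : ℝ) :
    IsSelfAdjoint (algebraMap ℝ A δ + star S * S) :=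
  (IsSelfAdjoint.algebraMap A (by exact IsSelfAdjoint.all δ)).add (IsSelfAdjoint.star_mul_self S)

theorem cont_low {A : Type} [CStarAlgebra A] (S : A) {δ : ℝ} (hδ : 0 < δ) :
    ContinuousOn Real.log (spectrum ℝ (algebraMap ℝ A δ + star S * S)) := by
  apply Real.continuousOn_log.mono
  intro x hx
  have := spec_low S x hx
  rw [Set.mem_compl_iff, Set.mem_singleton_iff]
  linarith

section main
variable {G Ω H : Type} [Group G] [Countable G] [MeasurableSpace Ω] [MulAction G Ω]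
  [NormedAddCommGroup H] [InnerProductSpace ℂ H] [CompleteSpace H]

theorem ev_cont (b : HilbertBasis G ℂ H) (L : G → unitary (H →L[ℂ] H)) (ω : Ω) :
    Continuous (ev b L ω) := by
  refine AddMonoidHomClass.continuous_of_bound (ev b L ω) 1 fun A => ?_
  rw [one_mul]
  exact ev_norm b L ω A

theorem ev_log (b : HilbertBasis G ℂ H) (L : G → unitary (H →L[ℂ] H)) (ω : Ω)
    (S : CF (Ω := Ω) b L) {δ : ℝ} (hδ : 0 < δ) :
    ev b L ω (CFC.log (algebraMap ℝ (CF (Ω := Ω) b L) δ + star S * S)) =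
      CFC.log (algebraMap ℝ (H →L[ℂ] H) δ + star (ev b L ω S) * ev b L ω S) := by
  unfold CFC.log
  have h0 : ev b L ω (algebraMap ℝ (CF (Ω := Ω) b L) δ + star S * S) =
      algebraMap ℝ (H →L[ℂ] H) δ + star (ev b L ω S) * ev b L ω S := by
    rw [map_add, map_mul, map_star]
    have h1 : ev b L ω (algebraMap ℝ (CF (Ω := Ω) b L) δ) = algebraMap ℝ (H →L[ℂ] H) δ := by
      rw [Algebra.algebraMap_eq_smul_one, Algebra.algebraMap_eq_smul_one]
      rfl
    rw [h1]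
  rw [StarAlgHom.map_cfc (ev b L ω) Real.log _ (cont_low _ hδ) (ev_cont b L ω) (sa_low _ δ)
    (by rw [h0]; exact sa_low _ δ), h0]

/-- the coefficient of the power -/
noncomputable def cc (g : G) (a : Ω → ℂ) (k : ℕ) (ω : Ω) (m : G) : ℂ :=
  ∏ j ∈ Finset.range k, a ((g ^ (j + 1) * m⁻¹) • ω)

theorem pow_apply (b : HilbertBasis G ℂ H) (L : G → unitary (H →L[ℂ] H)) (g : G) (a : Ω → ℂ)
    (X : CF (Ω := Ω) b L) (hX : IsW b g a (fun ω => ev b L ω X)) (k : ℕ) (ω : Ω) (m : G) :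
    (ev b L ω X ^ k) (b m) = cc g a k ω m • b (m * (g ^ k)⁻¹) := by
  induction k with
  | zero => simp [cc]
  | succ k ih =>
    rw [pow_succ']
    show (ev b L ω X) ((ev b L ω X ^ k) (b m)) = _
    rw [ih, map_smul, hX ω (m * (g ^ k)⁻¹), smul_smul]
    have e1 : g * (m * (g ^ k)⁻¹)⁻¹ = g ^ (k + 1) * m⁻¹ := by
      rw [mul_inv_rev, inv_inv, ← mul_assoc, ← pow_succ']
    have e2 : m * (g ^ k)⁻¹ * g⁻¹ = m * (g ^ (k + 1))⁻¹ := by
      rw [mul_assoc, ← mul_inv_rev, ← pow_succ']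
    rw [e1, e2]
    congr 1
    unfold cc
    rw [Finset.prod_range_succ]

theorem star_pow_apply (b : HilbertBasis G ℂ H) (L : G → unitary (H →L[ℂ] H)) (g : G)
    (a : Ω → ℂ) (X : CF (Ω := Ω) b L) (hX : IsW b g a (fun ω => ev b L ω X)) (k : ℕ) (ω : Ω) :
    (star (ev b L ω X ^ k)) (b (g ^ k)⁻¹) = conj (cc g a k ω 1) • b 1 := by
  have hcompl : ∀ x : H, (∀ m : G, ⟪b m, x⟫_ℂ = 0) → x = 0 := by
    intro x hx
    have h1 : b.repr x = 0 := by
      ext m
      rw [HilbertBasis.repr_apply_apply, hx m]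
      rfl
    exact (LinearIsometryEquiv.map_eq_zero_iff b.repr).1 h1
  have horth := b.orthonormal
  rw [← sub_eq_zero]
  apply hcompl
  intro m
  rw [inner_sub_right, ContinuousLinearMap.star_eq_adjoint,
    ContinuousLinearMap.adjoint_inner_right, pow_apply b L g a X hX k ω m, inner_smul_left,
    inner_smul_right]
  by_cases hm : m = 1
  · subst hm
    rw [one_mul, inner_self_eq_norm_sq_to_K, inner_self_eq_norm_sq_to_K, horth.1, horth.1]
    simp
  · rw [horth.2 hm, horth.2 (i := m * (g ^ k)⁻¹) (j := (g ^ k)⁻¹)]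
    · simp
    · intro h
      apply hm
      exact mul_eq_right.1 h

theorem eig (b : HilbertBasis G ℂ H) (L : G → unitary (H →L[ℂ] H)) (g : G)
    (a : Ω → ℂ) (X : CF (Ω := Ω) b L) (hX : IsW b g a (fun ω => ev b L ω X)) (k : ℕ) (ω : Ω)
    (δ : ℝ) (hδ : 0 < δ) :
    ⟪b 1, ev b L ω (CFC.log (algebraMap ℝ (CF (Ω := Ω) b L) δ + star (X ^ k) * X ^ k)) (b 1)⟫_ℂ =
      ((Real.log (δ + ‖cc g a k ω 1‖ ^ 2) : ℝ) : ℂ) := by
  have hb : ‖b 1‖ = 1 := b.orthonormal.1 1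
  have hb0 : b 1 ≠ 0 := by
    intro h
    rw [h, norm_zero] at hb
    exact zero_ne_one hb
  rw [ev_log b L ω (X ^ k) hδ, map_pow]
  have h1 : (algebraMap ℝ (H →L[ℂ] H) δ + star (ev b L ω X ^ k) * ev b L ω X ^ k) (b 1) =
      ((δ + ‖cc g a k ω 1‖ ^ 2 : ℝ) : ℂ) • b 1 := by
    rw [_root_.add_apply, Algebra.algebraMap_eq_smul_one, _root_.smul_apply]
    show (δ : ℝ) • b 1 + (star (ev b L ω X ^ k)) ((ev b L ω X ^ k) (b 1)) = _
    rw [pow_apply b L g a X hX, one_mul, map_smul, star_pow_apply b L g a X hX, smul_smul,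
      Complex.mul_conj, Complex.normSq_eq_norm_sq]
    push_cast
    rw [add_smul]
    congr 1
  unfold CFC.log
  rw [cfc_eig (sa_low _ δ) hb0 h1 Real.log (cont_low _ hδ), inner_smul_right,
    inner_self_eq_norm_sq_to_K, hb]
  simp

end main

theorem t_LEAD : P_LEAD := by
  intro G Ω H _ _ _ _ _ _ _ P _ b L hReg hmp g a X hX ha hne hint k δ hδ
  rw [tau_apply]
  have e1 : ∀ ω : Ω, ⟪b 1, ev b L ω (CFC.log (algebraMap ℝ (CF (Ω := Ω) b L) δ +
      star (X ^ k) * X ^ k)) (b 1)⟫_ℂ = ((Real.log (δ + ‖cc g a k ω 1‖ ^ 2) : ℝ) : ℂ) :=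
    fun ω => eig b L g a X hX k ω δ hδ
  have hI := ev_int P b L (CFC.log (algebraMap ℝ (CF (Ω := Ω) b L) δ +
      star (X ^ k) * X ^ k)) (b 1) (b 1)
  simp_rw [e1] at hI ⊢
  have hI' : Integrable (fun ω => Real.log (δ + ‖cc g a k ω 1‖ ^ 2)) P := hI.re
  rw [integral_complex_ofReal, Complex.ofReal_re]
  -- the sum of logarithms
  have hj : ∀ j : ℕ, Integrable (fun ω => Real.log ‖a ((g ^ (j + 1) * 1⁻¹) • ω)‖) P := by
    intro j
    exact (hmp (g ^ (j + 1) * 1⁻¹)).integrable_comp_of_integrable hint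
  have hj2 : ∀ j : ℕ, ∫ ω, Real.log ‖a ((g ^ (j + 1) * 1⁻¹) • ω)‖ ∂P =
      ∫ ω, Real.log ‖a ω‖ ∂P := by
    intro j
    have hm := hmp (g ^ (j + 1) * 1⁻¹)
    have h1 : ∫ ω, Real.log ‖a ω‖ ∂(Measure.map (fun ω : Ω => (g ^ (j + 1) * 1⁻¹) • ω) P) =
        ∫ ω, Real.log ‖a ((g ^ (j + 1) * 1⁻¹) • ω)‖ ∂P := by
      refine integral_map hm.measurable.aemeasurable ?_
      rw [hm.map_eq]
      exact hint.aestronglyMeasurable
    rw [← h1, hm.map_eq]
  have hS : ∫ ω, ∑ j ∈ Finset.range k, 2 * Real.log ‖a ((g ^ (j + 1) * 1⁻¹) • ω)‖ ∂P =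
      2 * k * ∫ ω, Real.log ‖a ω‖ ∂P := by
    rw [integral_finsetSum _ fun j _ => (hj j).const_mul 2]
    simp_rw [integral_const_mul, hj2]
    rw [Finset.sum_const, Finset.card_range, nsmul_eq_mul]
    ring
  rw [← hS]
  have hne' : ∀ᵐ ω ∂P, ∀ j : ℕ, a ((g ^ (j + 1) * 1⁻¹) • ω) ≠ 0 := by
    rw [ae_all_iff]
    intro j
    exact (hmp (g ^ (j + 1) * 1⁻¹)).quasiMeasurePreserving.ae hne
  refine integral_mono_ae (integrable_finsetSum _ fun j _ => (hj j).const_mul 2) hI' ?_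
  filter_upwards [hne'] with ω hω
  have h1 : ∑ j ∈ Finset.range k, 2 * Real.log ‖a ((g ^ (j + 1) * 1⁻¹) • ω)‖ =
      Real.log (‖cc g a k ω 1‖ ^ 2) := by
    rw [Real.log_pow, cc, norm_prod, Real.log_prod fun j _ => norm_ne_zero_iff.2 (hω j),
      Finset.mul_sum]
    simp
  rw [h1]
  have h2 : 0 < ‖cc g a k ω 1‖ := by
    rw [cc, norm_prod]
    exact Finset.prod_pos fun j _ => norm_pos_iff.2 (hω j)
  apply Real.log_le_log
  · positivity
  · linarith

end Pool.Agent.W493.RO.Lead
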